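import Pool.Agent.R48.KT.Stm

/-!
# Piece D5 of the Kasami triple count: the moments of `E`
-/

namespace Pool.Agent.R114.Kas

open Finset Pool.Agent.R48.KT
open scoped Classical

variable {F : Type} [Field F] [Fintype F] [CharP F 2]

/-- `W(c) = ∑_y χ(c y^r + y)` -/
noncomputable def WW (r : ℕ) (c : F) : ℤ := ∑ y : F, chi (c * y ^ r + y)

theorem EE_eq (r : ℕ) (x : F) : EE r x = ∑ c : F, chi (x * c ^ 3) * WW r c := by
  unfold EE WW
  apply sum_congr rfl
  intro c _
  rw [mul_sum]
  apply sum_congr rfl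
  intro y _
  rw [add_assoc, chi_add]

theorem WW_zero (r : ℕ) : WW r (0 : F) = 0 := by
  unfold WW
  simp only [zero_mul, zero_add]
  exact sum_chi

theorem EE_zero (r : ℕ) (hr : 1 ≤ r) (hb : Function.Bijective (fun y : F => y ^ r)) :
    EE r (0 : F) = Fintype.card F := by
  rw [EE_eq]
  simp only [zero_mul, chi_zero, one_mul]
  unfold WW
  rw [sum_comm]
  have h : ∀ y : F, ∑ c : F, chi (c * y ^ r + y) = if y = 0 then (Fintype.card F : ℤ) else 0 := by
    intro y
    have e : ∀ c : F, chi (c * y ^ r + y) = chi (y ^ r * c) * chi y := by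
      intro c
      rw [← chi_add]; ring_nf
    simp_rw [e]
    rw [← sum_mul, sum_chi_mul]
    by_cases hy : y = 0
    · subst hy
      rw [zero_pow (by omega)]
      simp [chi_zero]
    · rw [if_neg hy, if_neg (pow_ne_zero r hy), zero_mul]
  simp_rw [h]
  simp

theorem sum_EE (r : ℕ) : ∑ x : F, EE r x = 0 := by
  simp_rw [EE_eq]
  rw [sum_comm]
  apply sum_eq_zero
  intro c _
  rw [← sum_mul]
  by_cases hc : c = 0
  · rw [hc, WW_zero, mul_zero]
  · have e : ∀ x : F, chi (x * c ^ 3) = chi (c ^ 3 * x) := fun x => by rw [mul_comm]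
    simp_rw [e]
    rw [sum_chi_mul' _ (pow_ne_zero 3 hc), zero_mul]

/-- the inner correlation sums -/
theorem corr (r : ℕ) (hr : 1 ≤ r) (hb : Function.Bijective (fun y : F => y ^ r)) (om : F) (hom : om ≠ 0) :
    ∑ c : F, WW r c * WW r (om * c) = if om = 1 then (Fintype.card F : ℤ) ^ 2 else 0 := by
  obtain ⟨rho, hrho⟩ := hb.2 om
  simp only at hrho
  have hrho0 : rho ≠ 0 := by
    rintro rfl
    rw [zero_pow (by omega)] at hrho
    exact hom hrho.symm
  have h2 : (2 : F) = 0 := CharTwo.two_eq_zero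
  have e1 : ∀ c : F, WW r c * WW r (om * c)
      = ∑ y : F, ∑ y' : F, chi (c * (y ^ r + om * y' ^ r)) * chi (y + y') := by
    intro c
    unfold WW
    rw [sum_mul_sum]
    apply sum_congr rfl
    intro y _
    apply sum_congr rfl
    intro y' _
    rw [← chi_add, ← chi_add]
    ring_nf
  simp_rw [e1]
  rw [sum_comm]
  have e2 : ∀ y : F, ∑ c : F, ∑ y' : F, chi (c * (y ^ r + om * y' ^ r)) * chi (y + y')
      = (Fintype.card F : ℤ) * chi ((1 + rho⁻¹) * y) := by
    intro y
    rw [sum_comm]
    have e3 : ∀ y' : F, ∑ c : F, chi (c * (y ^ r + om * y' ^ r)) * chi (y + y')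
        = if y' = rho⁻¹ * y then (Fintype.card F : ℤ) * chi (y + y') else 0 := by
      intro y'
      rw [← sum_mul]
      have e4 : ∀ c : F, chi (c * (y ^ r + om * y' ^ r)) = chi ((y ^ r + om * y' ^ r) * c) :=
        fun c => by rw [mul_comm]
      simp_rw [e4]
      rw [sum_chi_mul]
      have e5 : y ^ r + om * y' ^ r = 0 ↔ y' = rho⁻¹ * y := by
        rw [← hrho, ← mul_pow]
        constructor
        · intro h
          have h' : y ^ r = (rho * y') ^ r := by linear_combination h - (rho * y') ^ r * h2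
          have := hb.1 h'
          rw [this]
          field_simp
        · intro h
          rw [h, mul_inv_cancel_left₀ hrho0]
          linear_combination y ^ r * h2
      by_cases hy : y' = rho⁻¹ * y
      · rw [if_pos (e5.2 hy), if_pos hy]
      · rw [if_neg (fun h => hy (e5.1 h)), if_neg hy, zero_mul]
    simp_rw [e3]
    rw [sum_ite_eq' univ (rho⁻¹ * y), if_pos (mem_univ _)]
    congr 2
    ring
  simp_rw [e2]
  rw [← mul_sum, sum_chi_mul]
  have e6 : 1 + rho⁻¹ = 0 ↔ om = 1 := by
    constructor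
    · intro h
      have : rho⁻¹ = 1 := by linear_combination h - h2
      have : rho = 1 := inv_eq_one.1 this
      rw [← hrho, this, one_pow]
    · intro h
      have : rho = 1 := hb.1 (by simp only; rw [hrho, h, one_pow])
      rw [this, inv_one]
      linear_combination h2
  by_cases h : om = 1
  · rw [if_pos (e6.2 h), if_pos h]; ring
  · rw [if_neg (fun h' => h (e6.1 h')), if_neg h, mul_zero]

theorem sum_EE_sq (r : ℕ) (hr : 1 ≤ r) (hb : Function.Bijective (fun y : F => y ^ r)) :
    ∑ x : F, EE r x ^ 2 = (Fintype.card F : ℤ) ^ 3 := by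
  have h2 : (2 : F) = 0 := CharTwo.two_eq_zero
  have e1 : ∀ x : F, EE r x ^ 2
      = ∑ c : F, ∑ c' : F, chi (x * (c ^ 3 + c' ^ 3)) * (WW r c * WW r c') := by
    intro x
    rw [EE_eq, sq, sum_mul_sum]
    apply sum_congr rfl
    intro c _
    apply sum_congr rfl
    intro c' _
    rw [mul_add, chi_add]
    ring
  simp_rw [e1]
  rw [sum_comm]
  have e2 : ∀ c : F, ∑ x : F, ∑ c' : F, chi (x * (c ^ 3 + c' ^ 3)) * (WW r c * WW r c')
      = ∑ c' : F, if c' ^ 3 = c ^ 3 then (Fintype.card F : ℤ) * (WW r c * WW r c') else 0 := by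
    intro c
    rw [sum_comm]
    apply sum_congr rfl
    intro c' _
    rw [← sum_mul]
    have e4 : ∀ x : F, chi (x * (c ^ 3 + c' ^ 3)) = chi ((c ^ 3 + c' ^ 3) * x) :=
      fun c => by rw [mul_comm]
    simp_rw [e4]
    rw [sum_chi_mul]
    have e5 : c ^ 3 + c' ^ 3 = 0 ↔ c' ^ 3 = c ^ 3 := by
      constructor
      · intro h; linear_combination h - c ^ 3 * h2
      · intro h; linear_combination h + c ^ 3 * h2
    by_cases h : c' ^ 3 = c ^ 3
    · rw [if_pos (e5.2 h), if_pos h]
    · rw [if_neg (fun h' => h (e5.1 h')), if_neg h, zero_mul]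
  simp_rw [e2]
  have e3 : ∀ c : F, (∑ c' : F, if c' ^ 3 = c ^ 3 then (Fintype.card F : ℤ) * (WW r c * WW r c') else 0)
      = ∑ om ∈ univ.filter (fun om : F => om ^ 3 = 1), (Fintype.card F : ℤ) * (WW r c * WW r (om * c)) := by
    intro c
    by_cases hc : c = 0
    · subst hc
      rw [WW_zero]
      simp
    · rw [← sum_filter]
      symm
      apply sum_bij' (fun om _ => om * c) (fun c' _ => c' / c)
      · intro om hom
        simp only [mem_filter, mem_univ, true_and] at hom ⊢
        rw [mul_pow, hom, one_mul]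
      · intro c' hc'
        simp only [mem_filter, mem_univ, true_and] at hc' ⊢
        rw [div_pow, hc', div_self (pow_ne_zero 3 hc)]
      · intro om _
        field_simp
      · intro c' _
        field_simp
      · intro om _
        rfl
  simp_rw [e3]
  rw [sum_comm]
  have e4 : ∀ om ∈ univ.filter (fun om : F => om ^ 3 = 1),
      ∑ c : F, (Fintype.card F : ℤ) * (WW r c * WW r (om * c))
        = if om = 1 then (Fintype.card F : ℤ) ^ 3 else 0 := by
    intro om hom
    simp only [mem_filter, mem_univ, true_and] at hom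
    have hom0 : om ≠ 0 := by
      rintro rfl
      norm_num at hom
    rw [← mul_sum, corr r hr hb om hom0]
    split_ifs <;> ring
  rw [sum_congr rfl e4, sum_ite_eq' _ (1 : F), if_pos]
  simp

theorem stmD5 : StmD5 := by
  intro F _ _ _ r hr hb
  exact ⟨sum_EE r, sum_EE_sq r hr hb, EE_zero r hr hb⟩

end Pool.Agent.R114.Kas
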