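import Mathlib

/-!
# Piece E of the Kasami triple count (MP_42ff57_nt): the curve `y^2 + y = x^3`

Paper proof by helper902 (`Pool/Agent/R902/notes_MP_42ff57.md`).
-/

namespace Pool.Agent.R114.Kas

open WeierstrassCurve WeierstrassCurve.Affine

/-- The curve `y² + y = x³` over `F₂`. -/
def W0 : WeierstrassCurve (ZMod 2) := ⟨0, 0, 1, 0, 0⟩

section field

variable {K : Type*} [Field K] [Algebra (ZMod 2) K] [DecidableEq K]

omit [DecidableEq K] in
theorem two0 : (2 : K) = 0 := by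
  have h := map_ofNat (algebraMap (ZMod 2) K) 2
  have h2 : (OfNat.ofNat 2 : ZMod 2) = 0 := by decide
  rw [h2, map_zero] at h
  exact h.symm

omit [DecidableEq K] in
theorem nons_iff (x y : K) : (W0⁄K).Nonsingular x y ↔ y ^ 2 + y = x ^ 3 := by
  have h2 := two0 (K := K)
  rw [nonsingular_iff, equation_iff]
  simp only [W0, WeierstrassCurve.baseChange, WeierstrassCurve.map, map_zero, map_one]
  constructor
  · rintro ⟨h, -⟩
    linear_combination h
  · intro h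
    refine ⟨by linear_combination h, Or.inr ?_⟩
    intro h'
    apply one_ne_zero (α := K)
    linear_combination h' - y * h2

/-- the point with given coordinates -/
def pt (x y : K) (h : y ^ 2 + y = x ^ 3) : (W0⁄K).Point := Point.some x y ((nons_iff x y).2 h)

theorem add_ne (x₁ y₁ x₂ y₂ ℓ x₃ y₃ : K) (h₁ : y₁ ^ 2 + y₁ = x₁ ^ 3) (h₂ : y₂ ^ 2 + y₂ = x₂ ^ 3)
    (hx : x₁ ≠ x₂) (hℓ : ℓ * (x₁ + x₂) = y₁ + y₂) (hx3 : x₃ = ℓ ^ 2 + x₁ + x₂)
    (hy3 : y₃ = ℓ * (x₃ + x₁) + y₁ + 1) (h₃ : y₃ ^ 2 + y₃ = x₃ ^ 3) :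
    pt x₁ y₁ h₁ + pt x₂ y₂ h₂ = pt x₃ y₃ h₃ := by
  have h2 := two0 (K := K)
  have hs : (W0⁄K).slope x₁ x₂ y₁ y₂ = ℓ := by
    rw [slope_of_X_ne hx]
    have : x₁ - x₂ ≠ 0 := sub_ne_zero.2 hx
    rw [div_eq_iff this]
    linear_combination -hℓ + (x₂ * ℓ - y₂) * h2
  have hX : (W0⁄K).addX x₁ x₂ ℓ = x₃ := by
    rw [hx3, addX]
    simp only [W0, WeierstrassCurve.baseChange, WeierstrassCurve.map, map_zero, map_one]
    linear_combination (-x₁ - x₂) * h2
  have hY : (W0⁄K).addY x₁ x₂ y₁ ℓ = y₃ := by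
    rw [addY, negAddY, hX, negY, hy3]
    simp only [W0, WeierstrassCurve.baseChange, WeierstrassCurve.map, map_zero, map_one]
    linear_combination (- ℓ * x₃ - y₁ - 1) * h2
  rw [pt, pt, Point.add_of_X_ne hx, pt]
  simp only [Point.some.injEq]
  rw [hs]
  exact ⟨hX, hY⟩

theorem add_self (x y : K) (h : y ^ 2 + y = x ^ 3) (h' : (y ^ 4 + 1) ^ 2 + (y ^ 4 + 1) = (x ^ 4) ^ 3) :
    pt x y h + pt x y h = pt (x ^ 4) (y ^ 4 + 1) h' := by
  have h2 := two0 (K := K)
  have hn : (W0⁄K).negY x y = y + 1 := by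
    rw [negY]
    simp only [W0, WeierstrassCurve.baseChange, WeierstrassCurve.map, map_zero, map_one]
    linear_combination (-y - 1) * h2
  have hne : y ≠ (W0⁄K).negY x y := by
    rw [hn]; simp
  have hs : (W0⁄K).slope x x y y = x ^ 2 := by
    rw [slope_of_Y_ne rfl hne, hn]
    have : y - (y + 1) ≠ 0 := by
      simp
    rw [div_eq_iff this]
    simp only [W0, WeierstrassCurve.baseChange, WeierstrassCurve.map, map_zero, map_one]
    linear_combination (2 * x ^ 2) * h2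
  have hX : (W0⁄K).addX x x (x ^ 2) = x ^ 4 := by
    rw [addX]
    simp only [W0, WeierstrassCurve.baseChange, WeierstrassCurve.map, map_zero, map_one]
    linear_combination (-x) * h2
  have hY : (W0⁄K).addY x x y (x ^ 2) = y ^ 4 + 1 := by
    rw [addY, negAddY, hX, negY]
    simp only [W0, WeierstrassCurve.baseChange, WeierstrassCurve.map, map_zero, map_one]
    linear_combination (x ^ 3 + y ^ 2 + y - 1) * h + (-y ^ 4 - y ^ 3 - 1) * h2
  rw [pt, Point.add_self_of_Y_ne hne, pt]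
  simp only [Point.some.injEq]
  rw [hs]
  exact ⟨hX, hY⟩

omit [DecidableEq K] in
theorem neg_pt (x y : K) (h : y ^ 2 + y = x ^ 3) (h' : (y + 1) ^ 2 + (y + 1) = x ^ 3) :
    - pt x y h = pt x (y + 1) h' := by
  have h2 := two0 (K := K)
  rw [pt, Point.neg_some, pt]
  simp only [Point.some.injEq, true_and]
  rw [negY]
  simp only [W0, WeierstrassCurve.baseChange, WeierstrassCurve.map, map_zero, map_one]
  linear_combination (-y - 1) * h2

omit [DecidableEq K] in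
theorem pt_cases (P : (W0⁄K).Point) : P = 0 ∨ ∃ x y h, P = pt x y h := by
  rcases P with _ | ⟨x, y, h⟩
  · exact Or.inl rfl
  · exact Or.inr ⟨x, y, (nons_iff x y).1 h, rfl⟩

omit [DecidableEq K] in
theorem pt_ne_zero (x y : K) (h : y ^ 2 + y = x ^ 3) : pt x y h ≠ 0 := by
  exact Point.some_ne_zero _

/-- Frobenius on `K` over `F₂`. -/
noncomputable def frob : K →ₐ[ZMod 2] K :=
  haveI : CharP K 2 := by
    exact charP_of_injective_algebraMap (algebraMap (ZMod 2) K).injective 2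
  { frobenius K 2 with
    commutes' := by
      intro r
      have : r ^ 2 = r := by revert r; decide
      show frobenius K 2 (algebraMap (ZMod 2) K r) = _
      rw [frobenius_def, ← map_pow, this] }

omit [DecidableEq K] in
theorem frob_apply (x : K) : frob x = x ^ 2 := rfl

/-- Frobenius on the curve. -/
noncomputable def φ : (W0⁄K).Point →+ (W0⁄K).Point := Point.map (frob (K := K))

omit [DecidableEq K] in
theorem sq_eq (x y : K) (h : y ^ 2 + y = x ^ 3) : (y ^ 2) ^ 2 + y ^ 2 = (x ^ 2) ^ 3 := by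
  have h2 := two0 (K := K)
  linear_combination (x ^ 3 + y ^ 2 + y) * h - y ^ 3 * h2

theorem φ_pt (x y : K) (h : y ^ 2 + y = x ^ 3) : φ (pt x y h) = pt (x ^ 2) (y ^ 2) (sq_eq x y h) := rfl

theorem φφ (P : (W0⁄K).Point) : φ (φ P) = -(P + P) := by
  have h2 := two0 (K := K)
  rcases pt_cases P with rfl | ⟨x, y, h, rfl⟩
  · simp
  · rw [φ_pt, φ_pt]
    have h4 : (y ^ 4) ^ 2 + y ^ 4 = (x ^ 4) ^ 3 := by
      have := sq_eq _ _ (sq_eq x y h)
      linear_combination this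
    have h4' : (y ^ 4 + 1) ^ 2 + (y ^ 4 + 1) = (x ^ 4) ^ 3 := by
      linear_combination h4 + (y ^ 4 + 1) * h2
    have h4'' : (y ^ 4 + 1 + 1) ^ 2 + (y ^ 4 + 1 + 1) = (x ^ 4) ^ 3 := by
      linear_combination h4' + (y ^ 4 + 1 + 1) * h2
    rw [add_self x y h h4', neg_pt _ _ h4' h4'']
    simp only [pt, Point.some.injEq]
    constructor
    · ring
    · linear_combination - h2

/-- The triple `u(P)`. -/
def u : (W0⁄K).Point → K × K × K
  | .zero => (1, 0, 1)
  | .some x y _ => (x + y, x + 1, x + y + 1)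

omit [DecidableEq K] in
@[simp] theorem u_zero : u (0 : (W0⁄K).Point) = (1, 0, 1) := rfl

omit [DecidableEq K] in
@[simp] theorem u_pt (x y : K) (h : y ^ 2 + y = x ^ 3) : u (pt x y h) = (x + y, x + 1, x + y + 1) := rfl

omit [DecidableEq K] in
theorem u_cube (P : (W0⁄K).Point) : (u P).1 ^ 3 + (u P).2.1 ^ 3 + (u P).2.2 ^ 3 = 0 := by
  have h2 := two0 (K := K)
  rcases pt_cases P with rfl | ⟨x, y, h, rfl⟩
  · simp; linear_combination h2
  · simp only [u_pt]
    grind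

/-- the triple product sum -/
def T (A B C : (W0⁄K).Point) : K :=
  (u A).1 * (u B).1 * (u C).1 + (u A).2.1 * (u B).2.1 * (u C).2.1 + (u A).2.2 * (u B).2.2 * (u C).2.2

theorem tri_neg (A : (W0⁄K).Point) : T 0 A (-A) = 0 := by
  have h2 := two0 (K := K)
  rcases pt_cases A with rfl | ⟨x, y, h, rfl⟩
  · simp [T]; linear_combination h2
  · have h' : (y + 1) ^ 2 + (y + 1) = x ^ 3 := by linear_combination h + (y + 1) * h2
    rw [neg_pt x y h h', T]
    simp only [u_zero, u_pt]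
    grind

theorem tri (A B C : (W0⁄K).Point) (h : A + B + C = 0) : T A B C = 0 := by
  have h2 := two0 (K := K)
  rcases pt_cases A with rfl | ⟨x₁, y₁, h₁, rfl⟩
  · rw [zero_add] at h
    rw [eq_neg_of_add_eq_zero_right h]
    exact tri_neg B
  rcases pt_cases B with rfl | ⟨x₂, y₂, h₂, rfl⟩
  · rw [add_zero] at h
    rw [eq_neg_of_add_eq_zero_right h]
    have := tri_neg (pt x₁ y₁ h₁)
    rw [T] at this ⊢
    linear_combination this
  have hC : C = -(pt x₁ y₁ h₁ + pt x₂ y₂ h₂) := eq_neg_of_add_eq_zero_right h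
  subst hC
  by_cases hx : x₁ = x₂
  · subst hx
    have hy : (y₁ + y₂) * (y₁ + y₂ + 1) = 0 := by
      grind
    rcases mul_eq_zero.1 hy with hy | hy
    · have hy' : y₂ = y₁ := by linear_combination hy - y₁ * h2
      subst hy'
      have h4 : (y₂ ^ 4 + 1) ^ 2 + (y₂ ^ 4 + 1) = (x₁ ^ 4) ^ 3 := by
        have := sq_eq _ _ (sq_eq x₁ y₂ h₁)
        linear_combination this + (y₂ ^ 4 + 1) * h2
      have h4' : (y₂ ^ 4 + 1 + 1) ^ 2 + (y₂ ^ 4 + 1 + 1) = (x₁ ^ 4) ^ 3 := by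
        linear_combination h4 + (y₂ ^ 4 + 1 + 1) * h2
      rw [add_self x₁ y₂ h₁ h4, neg_pt _ _ h4 h4', T]
      simp only [u_pt]
      have hc := u_cube (pt x₁ y₂ h₁)
      simp only [u_pt] at hc
      have hc2 : ((x₁ + y₂) ^ 3 + (x₁ + 1) ^ 3 + (x₁ + y₂ + 1) ^ 3) ^ 2 = 0 := by rw [hc]; ring
      clear hc h4 h4' hy h h₁ h₂
      grind
    · have hy' : y₂ = y₁ + 1 := by linear_combination hy - (y₁ + 1) * h2
      subst hy'
      rw [← neg_pt x₁ y₁ h₁ h₂, add_neg_cancel, neg_zero]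
      have := tri_neg (pt x₁ y₁ h₁)
      rw [T] at this ⊢
      linear_combination this
  · have hx' : x₁ + x₂ ≠ 0 := by
      intro h0
      apply hx
      linear_combination h0 - x₂ * h2
    obtain ⟨ℓ, hℓ⟩ : ∃ ℓ, ℓ * (x₁ + x₂) = y₁ + y₂ := ⟨(y₁ + y₂) / (x₁ + x₂), by field_simp⟩
    obtain ⟨m, hm⟩ : ∃ m, m = y₁ + ℓ * x₁ := ⟨_, rfl⟩
    have hy1 : y₁ = ℓ * x₁ + m := by linear_combination -hm - (ℓ * x₁) * h2
    have hy2 : y₂ = ℓ * x₂ + m := by grind
    subst hy1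
    subst hy2
    obtain ⟨x₃, hx3⟩ : ∃ x₃, x₃ = ℓ ^ 2 + x₁ + x₂ := ⟨_, rfl⟩
    have hk : x₁ ^ 2 + x₁ * x₂ + x₂ ^ 2 + ℓ ^ 2 * (x₁ + x₂) + ℓ = 0 := by
      have : (x₁ + x₂) * (x₁ ^ 2 + x₁ * x₂ + x₂ ^ 2 + ℓ ^ 2 * (x₁ + x₂) + ℓ) = 0 := by
        grind
      exact (mul_eq_zero.1 this).resolve_left hx'
    have he2 : x₁ * x₂ + x₁ * x₃ + x₂ * x₃ = ℓ := by
      grind
    have he3 : x₁ * x₂ * x₃ = m ^ 2 + m := by
      grind
    have h₃ : (ℓ * x₃ + m + 1) ^ 2 + (ℓ * x₃ + m + 1) = x₃ ^ 3 := by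
      clear h
      grind
    have h₃' : (ℓ * x₃ + m) ^ 2 + (ℓ * x₃ + m) = x₃ ^ 3 := by
      linear_combination h₃ - (ℓ * x₃ + m + 1) * h2
    have h₃'' : (ℓ * x₃ + m + 1 + 1) ^ 2 + (ℓ * x₃ + m + 1 + 1) = x₃ ^ 3 := by
      linear_combination h₃ + (ℓ * x₃ + m + 1 + 1) * h2
    rw [add_ne x₁ _ x₂ _ ℓ x₃ (ℓ * x₃ + m + 1) h₁ h₂ hx hℓ hx3
      (by linear_combination (- ℓ * x₁) * h2) h₃, neg_pt _ _ h₃ h₃'']
    rw [T]
    simp only [u_pt]
    clear h h₁ h₂ h₃ h₃' h₃'' hℓ hm hk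
    linear_combination (norm := ring_nf) (2 * (1 + ℓ) ^ 3 + 1) * he3 + ((1 + ℓ) ^ 2 * (2 * m + 1) + 1) * he2 + ((1 + ℓ) * (2 * m ^ 2 + 2 * m + 1) + 1) * hx3
    grind

theorem φ_iter (x y : K) (h : y ^ 2 + y = x ^ 3) (k : ℕ) :
    ∃ h', φ^[k] (pt x y h) = pt (x ^ 2 ^ k) (y ^ 2 ^ k) h' := by
  induction k with
  | zero =>
    refine ⟨by simpa using h, ?_⟩
    simp only [Function.iterate_zero, id, pow_zero, pow_one]
  | succ k ih =>
    obtain ⟨h', e⟩ := ih
    have e1 : x ^ 2 ^ (k + 1) = (x ^ 2 ^ k) ^ 2 := by rw [pow_succ, pow_mul]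
    have e2 : y ^ 2 ^ (k + 1) = (y ^ 2 ^ k) ^ 2 := by rw [pow_succ, pow_mul]
    rw [Function.iterate_succ_apply', e, φ_pt]
    refine ⟨by rw [e1, e2]; exact sq_eq _ _ h', ?_⟩
    simp only [e1, e2]

theorem u_iter (P : (W0⁄K).Point) (k : ℕ) :
    u (φ^[k] P) = ((u P).1 ^ 2 ^ k, (u P).2.1 ^ 2 ^ k, (u P).2.2 ^ 2 ^ k) := by
  have : CharP K 2 := charP_of_injective_algebraMap (algebraMap (ZMod 2) K).injective 2
  rcases pt_cases P with rfl | ⟨x, y, h, rfl⟩
  · have : φ^[k] (0 : (W0⁄K).Point) = 0 := by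
      induction k with
      | zero => rfl
      | succ k ih => rw [Function.iterate_succ_apply', ih, map_zero]
    rw [this]
    simp
  · obtain ⟨h', e⟩ := φ_iter x y h k
    rw [e, u_pt, u_pt]
    have hq : 2 ^ k ≠ 0 := by positivity
    ext
    · simp only [add_pow_char_pow]
    · simp only [add_pow_char_pow, one_pow]
    · simp only [add_pow_char_pow, one_pow]

variable (K) in
/-- Frobenius as an element of the endomorphism ring. -/
noncomputable def Φ : AddMonoid.End (W0⁄K).Point := φ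

theorem Φ_pow (k : ℕ) (P : (W0⁄K).Point) : (Φ K ^ k) P = φ^[k] P := by
  rw [AddMonoid.End.coe_pow]; rfl

variable (K) in
/-- `ν = ∑_{i<k} (-φ)^i`. -/
noncomputable def ν (k : ℕ) : AddMonoid.End (W0⁄K).Point := ∑ i ∈ Finset.range k, (-Φ K) ^ i

theorem gen1 {R : Type*} [Ring R] (a : R) (k : ℕ) (hk : Odd k) :
    (∑ i ∈ Finset.range k, (-a) ^ i) * (1 + a) = 1 + a ^ k := by
  have := geom_sum_mul_neg (-a) k
  rw [hk.neg_pow, sub_neg_eq_add, sub_neg_eq_add] at this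
  exact this

theorem gen2 {R : Type*} [Ring R] (a : R) (k : ℕ) (hk : Odd k) :
    (1 + a) * (∑ i ∈ Finset.range k, (-a) ^ i) = 1 + a ^ k := by
  have := mul_neg_geom_sum (-a) k
  rw [hk.neg_pow, sub_neg_eq_add, sub_neg_eq_add] at this
  exact this

theorem sum_fix {M : Type*} [AddCommGroup M] (f : AddMonoid.End M) (P : M) (h : f P = P) (k : ℕ) :
    (∑ i ∈ Finset.range k, f ^ i) P = k • P := by
  have h11 : ∀ i : ℕ, (f ^ i) P = P := by
    intro i
    induction i with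
    | zero => rfl
    | succ i ih =>
      rw [pow_succ]
      show (f ^ i) (f P) = P
      rw [h, ih]
  induction k with
  | zero => simp
  | succ k ih =>
    rw [Finset.sum_range_succ, succ_nsmul]
    show (∑ i ∈ Finset.range k, f ^ i) P + (f ^ k) P = _
    rw [ih, h11]

theorem ν_mul (k : ℕ) (hk : Odd k) : ν K k * (1 + Φ K) = 1 + Φ K ^ k := by
  exact gen1 (Φ K) k hk

theorem mul_ν (k : ℕ) (hk : Odd k) : (1 + Φ K) * ν K k = 1 + Φ K ^ k := by
  exact gen2 (Φ K) k hk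

end field

section fin

variable {F : Type*} [Field F] [Algebra (ZMod 2) F] [DecidableEq F] [Fintype F]

omit [DecidableEq F] in
theorem finPt : Finite (W0⁄F).Point := by
  classical
  refine Finite.of_injective (β := Option (F × F))
    (fun P => match P with
      | .zero => none
      | .some x y _ => some (x, y)) ?_
  rintro (_ | ⟨x, y, h⟩) (_ | ⟨x', y', h'⟩) e
  · rfl
  · simp at e
  · simp at e
  · simp only [Option.some.injEq, Prod.mk.injEq] at e
    obtain ⟨rfl, rfl⟩ := e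
    rfl

theorem per (n : ℕ) (hF : Fintype.card F = 2 ^ n) (P : (W0⁄F).Point) : φ^[n] P = P := by
  rcases pt_cases P with rfl | ⟨x, y, h, rfl⟩
  · induction n with
    | zero => rfl
    | succ k ih => 
      have : ∀ k, φ^[k] (0 : (W0⁄F).Point) = 0 := by
        intro k
        induction k with
        | zero => rfl
        | succ k ih => rw [Function.iterate_succ_apply', ih, map_zero]
      exact this _
  · obtain ⟨h', e⟩ := φ_iter x y h n
    rw [e]
    have hx : x ^ 2 ^ n = x := by rw [← hF, FiniteField.pow_card]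
    have hy : y ^ 2 ^ n = y := by rw [← hF, FiniteField.pow_card]
    simp only [hx, hy]

theorem ν_inj (n k : ℕ) (hF : Fintype.card F = 2 ^ n) (hk : Odd k) (hg : Nat.Coprime k n)
    (h3 : Odd n ∨ ¬ 3 ∣ k) : Function.Injective (ν F k) := by
  rw [injective_iff_map_eq_zero]
  intro P hP
  have h1 : P + φ^[k] P = 0 := by
    have : ((1 + Φ F) * ν F k) P = 0 := by
      show (1 + Φ F) (ν F k P) = 0
      rw [hP, map_zero]
    rw [mul_ν k hk] at this
    rw [← Φ_pow]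
    exact this
  have h2 : φ^[k] P = - P := eq_neg_of_add_eq_zero_right h1
  have h4 : Function.IsPeriodicPt φ (2 * k) P := by
    show φ^[2 * k] P = P
    rw [two_mul, Function.iterate_add_apply, h2]
    have : φ^[k] (-P) = - φ^[k] P := by
      rw [← Φ_pow, ← Φ_pow, map_neg]
    rw [this, h2, neg_neg]
  have h5 : Function.IsPeriodicPt φ n P := per n hF P
  have h6 := h4.gcd h5
  rcases Nat.even_or_odd n with hn | hn
  · have h3k : ¬ 3 ∣ k := by
      rcases h3 with h3 | h3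
      · exact absurd hn (Nat.not_even_iff_odd.2 h3)
      · exact h3
    obtain ⟨m, rfl⟩ := hn
    have hg2 : Nat.gcd (2 * k) (m + m) = 2 := by
      rw [← two_mul, Nat.gcd_mul_left]
      have : Nat.gcd k m = 1 := Nat.Coprime.coprime_dvd_right ⟨2, by ring⟩ hg
      rw [this]
    rw [hg2] at h6
    have h7 : φ (φ P) = P := h6
    rw [φφ] at h7
    have h8 : (3 : ℕ) • P = 0 := by
      have : P + P + P = 0 := by
        nth_rewrite 3 [← h7]
        exact add_neg_cancel _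
      rw [← this]; abel
    have h9 : φ P = - P := by
      obtain ⟨j, rfl⟩ := hk
      have h2' : φ (φ^[2 * j] P) = - P := (Function.iterate_succ_apply' φ (2 * j) P).symm.trans h2
      have : φ^[2 * j] P = P := by
        have := h6.mul_const j
        exact this
      rw [this] at h2'
      exact h2'
    have h10 : (-Φ F) P = P := by
      show - (φ P) = P
      rw [h9, neg_neg]
    have h12 : ν F k P = k • P := sum_fix _ P h10 k
    rw [h12] at hP
    have hc : Nat.Coprime 3 k := (Nat.Prime.coprime_iff_not_dvd Nat.prime_three).2 h3k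
    have h13 : addOrderOf P ∣ Nat.gcd 3 k :=
      Nat.dvd_gcd (addOrderOf_dvd_of_nsmul_eq_zero h8) (addOrderOf_dvd_of_nsmul_eq_zero hP)
    rw [hc] at h13
    exact AddMonoid.addOrderOf_eq_one_iff.1 (Nat.dvd_one.1 h13)
  · have hg2 : Nat.gcd (2 * k) n = 1 := by
      apply Nat.Coprime.mul_left _ hg
      exact Nat.coprime_two_left.2 hn
    rw [hg2] at h6
    have h7 : φ P = P := h6
    have h8 : φ^[k] P = P := Function.iterate_fixed h7 k
    rw [h8] at h1
    have h9 := φφ P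
    rw [h7, h7, h1, neg_zero] at h9
    exact h9

theorem ν_surj (n k : ℕ) (hF : Fintype.card F = 2 ^ n) (hk : Odd k) (hg : Nat.Coprime k n)
    (h3 : Odd n ∨ ¬ 3 ∣ k) : Function.Surjective (ν F k) := by
  have := finPt (F := F)
  exact Finite.surjective_of_injective (ν_inj n k hF hk hg h3)

end fin

section base

variable {F K : Type*} [Field F] [Field K] [Algebra (ZMod 2) F] [Algebra (ZMod 2) K]
  [DecidableEq F] [DecidableEq K] (ι : F →ₐ[ZMod 2] K)

/-- base change of points -/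
noncomputable def bc : (W0⁄F).Point →+ (W0⁄K).Point := Point.map ι

omit [DecidableEq F] [DecidableEq K] in
theorem eq_map {x y : F} (h : y ^ 2 + y = x ^ 3) : (ι y) ^ 2 + ι y = (ι x) ^ 3 := by
  rw [← map_pow, ← map_add, h, map_pow]

theorem bc_pt (x y : F) (h : y ^ 2 + y = x ^ 3) : bc ι (pt x y h) = pt (ι x) (ι y) (eq_map ι h) := rfl

theorem bc_φ (P : (W0⁄F).Point) : bc ι (φ P) = φ (bc ι P) := by
  rcases pt_cases P with rfl | ⟨x, y, h, rfl⟩
  · simp
  · rw [φ_pt, bc_pt, bc_pt, φ_pt]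
    simp only [pt, map_pow]

theorem bc_ν (k : ℕ) (P : (W0⁄F).Point) : bc ι (ν F k P) = ν K k (bc ι P) := by
  have h1 : ∀ P, bc ι ((-Φ F) P) = (-Φ K) (bc ι P) := by
    intro P
    show bc ι (- φ P) = - φ (bc ι P)
    rw [map_neg, bc_φ]
  have h11 : ∀ i : ℕ, ∀ P, bc ι (((-Φ F) ^ i) P) = ((-Φ K) ^ i) (bc ι P) := by
    intro i
    induction i with
    | zero => intro P; rfl
    | succ i ih =>
      intro P
      rw [pow_succ, pow_succ]
      show bc ι (((-Φ F) ^ i) ((-Φ F) P)) = ((-Φ K) ^ i) ((-Φ K) (bc ι P))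
      rw [ih, h1]
  rw [ν, ν]
  induction k with
  | zero => simp
  | succ k ih =>
    rw [Finset.sum_range_succ, Finset.sum_range_succ]
    show bc ι ((∑ i ∈ Finset.range k, (-Φ F) ^ i) P + ((-Φ F) ^ k) P) =
      (∑ i ∈ Finset.range k, (-Φ K) ^ i) (bc ι P) + ((-Φ K) ^ k) (bc ι P)
    rw [map_add, ih, h11]

theorem u_bc (P : (W0⁄F).Point) : u (bc ι P) = (ι (u P).1, ι (u P).2.1, ι (u P).2.2) := by
  rcases pt_cases P with rfl | ⟨x, y, h, rfl⟩
  · simp
  · rw [bc_pt, u_pt, u_pt]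
    simp

end base

section alg
variable {K : Type*} [Field K]
theorem alg1 (h2 : (2:K) = 0) (t₁ t₃ b : K) (ht : t₁ ^ 3 = b) (ht3 : t₃ ^ 3 = b + 1) :
    (t₁ + t₃) * (1 + t₃) ^ 2 + (t₁ + t₃) ^ 2 * (1 + t₃) - (t₁ + t₃ + 1) ^ 3 = 0 := by
  grind

theorem alg0 (h2 : (2:K) = 0) (t₁ t₃ b : K) (ht : t₁ ^ 3 = b) (ht3 : t₃ ^ 3 = b + 1) :
    (t₁ + t₃) ^ 3 + (t₁ + t₃) * (t₁ * t₃) = 1 := by
  grind

theorem alg3 (h2 : (2:K) = 0) (s s' x X : K) (hs' : s * s' = 1) (hsx : s ^ 3 + s * x = 1) (hX : X = 1 + s') :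
    x = ((s + 1) ^ 2 * s') ^ 2 + X + X ^ 2 := by
  have eℓ : (s + 1) ^ 2 * s' = s + s' + 2 := by linear_combination (s + 2) * hs'
  have ex : s ^ 2 + x = s' := by linear_combination s' * hsx - (s ^ 2 + x) * hs'
  rw [eℓ, hX]
  linear_combination ex + (-s ^ 2 - s' ^ 2 - s * s' - 2 * s - 3 * s' - 3) * h2

theorem alg4 (h2 : (2:K) = 0) (s s' x X Y t₁ t₃ b : K) (hs' : s * s' = 1) (hsx : s ^ 3 + s * x = 1)
    (hX : X = 1 + s') (hY : Y = (1 + t₃) * s') (hs : s = t₁ + t₃) (ht : t₁ ^ 3 = b) (ht3 : t₃ ^ 3 = b + 1) :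
    b = ((s + 1) ^ 2 * s') * (x + X) + Y := by
  have eℓ : (s + 1) ^ 2 * s' = s + s' + 2 := by linear_combination (s + 2) * hs'
  have ex : s ^ 2 + x = s' := by linear_combination s' * hsx - (s ^ 2 + x) * hs'
  have key : s * b = s ^ 4 + t₃ := by
    rw [hs]
    clear hs hs' hsx hX hY eℓ ex
    linear_combination (norm := ring_nf) -t₁ * ht - t₃ * ht3
    clear ht ht3
    grind
  have e2 : b = s ^ 3 + t₃ * s' := by linear_combination s' * key - (b - s ^ 3) * hs'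
  have e3 : x = s' - s ^ 2 := by linear_combination ex
  rw [eℓ, hX, hY, e2, e3]
  clear key e2 e3 ex eℓ hs ht ht3 hsx hX hY
  grind
end alg

section clos

variable {K : Type*} [Field K] [Algebra (ZMod 2) K] [DecidableEq K]

/-- The geometric heart: over a field containing a cube root of `b`. -/
theorem heart (k : ℕ) (hk : Odd k) (x b : K) (h : b ^ 2 + b = x ^ 3) (hb0 : b ≠ 0) (hb1 : b ≠ 1)
    (t₁ : K) (ht : t₁ ^ 3 = b) :
    (u (ν K k (pt x b h))).1 * b ^ ((2 ^ k + 1) / 3) + (u (ν K k (pt x b h))).2.1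
      + (u (ν K k (pt x b h))).2.2 * (b + 1) ^ ((2 ^ k + 1) / 3) = 0 := by
  have h2 := two0 (K := K)
  have ht0 : t₁ ≠ 0 := by rintro rfl; apply hb0; rw [← ht]; simp
  obtain ⟨t₃, h13⟩ : ∃ t₃, t₁ * t₃ = x := ⟨x / t₁, by field_simp⟩
  have ht3 : t₃ ^ 3 = b + 1 := by
    have : b * (t₃ ^ 3 - (b + 1)) = 0 := by
      have : (t₁ * t₃) ^ 3 = x ^ 3 := by rw [h13]
      rw [mul_pow, ht] at this
      linear_combination this - h
    exact sub_eq_zero.1 ((mul_eq_zero.1 this).resolve_left hb0)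
  obtain ⟨s, hs⟩ : ∃ s, s = t₁ + t₃ := ⟨_, rfl⟩
  have hs0 : s ≠ 0 := by
    rintro rfl
    have : t₃ = t₁ := by linear_combination -hs - t₁ * h2
    rw [this, ht] at ht3
    exact one_ne_zero (α := K) (by linear_combination -ht3)
  have hsx : s ^ 3 + s * x = 1 := by
    rw [← h13, hs]
    exact alg0 h2 t₁ t₃ b ht ht3
  have hx0 : x ≠ 0 := by
    rintro rfl
    have : b * (b + 1) = 0 := by linear_combination h
    rcases mul_eq_zero.1 this with h' | h'
    · exact hb0 h'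
    · apply hb1; linear_combination h' - h2
  have hs1 : s + 1 ≠ 0 := by
    intro h'
    have h'' : s = 1 := by linear_combination h' - h2
    rw [h''] at hsx
    apply hx0; linear_combination hsx
  obtain ⟨s', hs'⟩ : ∃ s', s * s' = 1 := ⟨s⁻¹, mul_inv_cancel₀ hs0⟩
  -- the point τ
  obtain ⟨X, hX⟩ : ∃ X, X = 1 + s' := ⟨_, rfl⟩
  obtain ⟨Y, hY⟩ : ∃ Y, Y = (1 + t₃) * s' := ⟨_, rfl⟩
  have hXs : s * X = s + 1 := by rw [hX]; linear_combination hs'
  have hYs : s * Y = 1 + t₃ := by rw [hY]; linear_combination (1 + t₃) * hs'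
  have hτ : Y ^ 2 + Y = X ^ 3 := by
    have : s ^ 3 * (Y ^ 2 + Y - X ^ 3) = 0 := by
      have e : s ^ 3 * (Y ^ 2 + Y - X ^ 3) = s * (s * Y) ^ 2 + s ^ 2 * (s * Y) - (s * X) ^ 3 := by ring
      rw [e, hXs, hYs, hs]
      exact alg1 h2 t₁ t₃ b ht ht3
    exact sub_eq_zero.1 ((mul_eq_zero.1 this).resolve_left (pow_ne_zero 3 hs0))
  have hX0 : X ≠ 0 := by
    rintro rfl
    apply hs1; rw [← hXs]; ring
  have hX1 : X ≠ 1 := by
    rintro rfl
    apply one_ne_zero (α := K); linear_combination -hXs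
  have hne : X ≠ X ^ 2 := by
    intro h'
    have : X * (X - 1) = 0 := by linear_combination -h'
    rcases mul_eq_zero.1 this with h'' | h''
    · exact hX0 h''
    · exact hX1 (sub_eq_zero.1 h'')
  have h' : (b + 1) ^ 2 + (b + 1) = x ^ 3 := by linear_combination h + (b + 1) * h2
  have hsum : pt X Y hτ + φ (pt X Y hτ) = pt x (b + 1) h' := by
    rw [φ_pt]
    have e1 : (s + 1) * s' = X := by rw [hX]; linear_combination hs'
    have e2 : X + X ^ 2 = X * s' := by rw [hX]; linear_combination (1 + s') * h2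
    apply add_ne X Y (X ^ 2) (Y ^ 2) ((s + 1) ^ 2 * s') x (b + 1) hτ (sq_eq _ _ hτ) hne
    · linear_combination ((s + 1) ^ 2 * s') * e2 + X * ((s + 1) * s' + X) * e1 - hτ
    · exact alg3 h2 s s' x X hs' hsx hX
    · have := alg4 h2 s s' x X Y t₁ t₃ b hs' hsx hX hY hs ht ht3
      linear_combination this
  have hP : pt x b h = -(pt X Y hτ + φ (pt X Y hτ)) := by
    have h'' : (b + 1 + 1) ^ 2 + (b + 1 + 1) = x ^ 3 := by linear_combination h' + (b + 1 + 1) * h2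
    rw [hsum, neg_pt _ _ h' h'']
    simp only [pt, Point.some.injEq, true_and]
    linear_combination -h2
  have hQ : ν K k (pt x b h) + pt X Y hτ + φ^[k] (pt X Y hτ) = 0 := by
    have e1 : pt X Y hτ + φ (pt X Y hτ) = (1 + Φ K) (pt X Y hτ) := rfl
    have e2 : ν K k ((1 + Φ K) (pt X Y hτ)) = (ν K k * (1 + Φ K)) (pt X Y hτ) := rfl
    have e3 : (1 + Φ K ^ k) (pt X Y hτ) = pt X Y hτ + (Φ K ^ k) (pt X Y hτ) := rfl
    rw [hP, map_neg, e1, e2, ν_mul k hk, e3, Φ_pow]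
    abel
  have hT := tri _ _ _ hQ
  rw [T, u_iter, u_pt] at hT
  set c := u (ν K k (pt x b h)) with hc
  have hu1 : X + Y = t₁ * s' := by
    rw [hX, hY]
    linear_combination (s' + t₃ * s') * h2 - hs' + s' * hs
  have hu2 : X + 1 = 1 * s' := by
    rw [hX]
    linear_combination h2
  have hu3 : X + Y + 1 = t₃ * s' := by
    rw [hX, hY]
    linear_combination (1 + s') * h2
  have hT' : c.1 * (t₁ * s') * (t₁ * s') ^ 2 ^ k + c.2.1 * (1 * s') * (1 * s') ^ 2 ^ k +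
      c.2.2 * (t₃ * s') * (t₃ * s') ^ 2 ^ k = 0 := by
    rw [← hu3, ← hu1, ← hu2]
    exact hT
  have hs'0 : s' ≠ 0 := by
    rintro rfl
    rw [mul_zero] at hs'
    exact zero_ne_one hs'
  have h3 : 3 * ((2 ^ k + 1) / 3) = 2 ^ k + 1 := by
    apply Nat.mul_div_cancel'
    obtain ⟨j, rfl⟩ := hk
    have : 2 ^ (2 * j + 1) + 1 ≡ 0 [MOD 3] := by
      rw [pow_succ, pow_mul]
      have : (2 ^ 2) ^ j ≡ 1 ^ j [MOD 3] := Nat.ModEq.pow j (by decide)
      rw [one_pow] at this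
      exact ((this.mul_right 2).add_right 1).trans (by decide)
    exact (Nat.modEq_zero_iff_dvd).1 this
  have hb : b ^ ((2 ^ k + 1) / 3) = t₁ * t₁ ^ 2 ^ k := by
    rw [← ht, ← pow_mul, h3]; ring
  have hb' : (b + 1) ^ ((2 ^ k + 1) / 3) = t₃ * t₃ ^ 2 ^ k := by
    rw [← ht3, ← pow_mul, h3]; ring
  rw [hb, hb']
  have : s' * s' ^ 2 ^ k * (c.1 * (t₁ * t₁ ^ 2 ^ k) + c.2.1 + c.2.2 * (t₃ * t₃ ^ 2 ^ k)) = 0 := by
    rw [← hT']
    simp only [mul_pow, one_pow]
    ring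
  exact (mul_eq_zero.1 this).resolve_left (mul_ne_zero hs'0 (pow_ne_zero _ hs'0))

end clos

section final

variable {F : Type*} [Field F] [Fintype F] [CharP F 2]

/-- Piece E: existence of a nonzero solution. -/
theorem existence (n k : ℕ) (hF : Fintype.card F = 2 ^ n) (hk : Odd k) (hg : Nat.Coprime k n)
    (h3 : Odd n ∨ ¬ 3 ∣ k) (c₁ c₂ c₃ : F) (h₁ : c₁ ≠ 0) (h₂ : c₂ ≠ 0) (h₃ : c₃ ≠ 0)
    (hc : c₁ ^ 3 + c₂ ^ 3 + c₃ ^ 3 = 0) :
    ∃ y₁ y₂ y₃ : F, ¬ (y₁ = 0 ∧ y₂ = 0 ∧ y₃ = 0) ∧ y₁ + y₂ + y₃ = 0 ∧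
      c₁ * y₁ ^ ((2 ^ k + 1) / 3) + c₂ * y₂ ^ ((2 ^ k + 1) / 3) + c₃ * y₃ ^ ((2 ^ k + 1) / 3) = 0 := by
  classical
  let _ : Algebra (ZMod 2) F := ZMod.algebra F 2
  have h2 := two0 (K := F)
  have hd : c₁ + c₃ ≠ 0 := by
    intro h
    have : c₃ = c₁ := by linear_combination h - c₁ * h2
    rw [this] at hc
    apply h₂
    have : c₂ ^ 3 = 0 := by linear_combination hc - c₁ ^ 3 * h2
    exact pow_eq_zero_iff (by norm_num) |>.1 this
  obtain ⟨d, hd'⟩ : ∃ d, (c₁ + c₃) * d = 1 := ⟨(c₁ + c₃)⁻¹, mul_inv_cancel₀ hd⟩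
  have hd0 : d ≠ 0 := by rintro rfl; rw [mul_zero] at hd'; exact zero_ne_one hd'
  obtain ⟨X, hX⟩ : ∃ X, X = (c₁ + c₂ + c₃) * d := ⟨_, rfl⟩
  obtain ⟨Y, hY⟩ : ∃ Y, Y = (c₂ + c₃) * d := ⟨_, rfl⟩
  have hQ : Y ^ 2 + Y = X ^ 3 := by
    have : (c₁ + c₃) ^ 3 * (Y ^ 2 + Y - X ^ 3) = 0 := by
      have hXs : (c₁ + c₃) * X = c₁ + c₂ + c₃ := by rw [hX]; linear_combination (c₁ + c₂ + c₃) * hd'
      have hYs : (c₁ + c₃) * Y = c₂ + c₃ := by rw [hY]; linear_combination (c₂ + c₃) * hd'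
      have e : (c₁ + c₃) ^ 3 * (Y ^ 2 + Y - X ^ 3) = (c₁ + c₃) * ((c₁ + c₃) * Y) ^ 2
        + (c₁ + c₃) ^ 2 * ((c₁ + c₃) * Y) - ((c₁ + c₃) * X) ^ 3 := by ring
      rw [e, hXs, hYs]
      grind
    exact sub_eq_zero.1 ((mul_eq_zero.1 this).resolve_left (pow_ne_zero 3 hd))
  have hu1 : X + Y = c₁ * d := by rw [hX, hY]; linear_combination (c₂ + c₃) * d * h2
  have hu2 : X + 1 = c₂ * d := by rw [hX]; linear_combination -hd' + (c₁ + c₃) * d * h2
  have hu3 : X + Y + 1 = c₃ * d := by rw [hX, hY]; grind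
  obtain ⟨P, hP⟩ := ν_surj n k hF hk hg h3 (pt X Y hQ)
  rcases pt_cases P with rfl | ⟨x, b, h, rfl⟩
  · rw [map_zero] at hP
    exact absurd hP.symm (pt_ne_zero _ _ _)
  refine ⟨b, 1, b + 1, fun h => one_ne_zero h.2.1, by linear_combination (b + 1) * h2, ?_⟩
  by_cases hb : b = 0 ∨ b = 1
  · exfalso
    have hx : x = 0 := by
      have : x ^ 3 = 0 := by
        rw [← h]
        rcases hb with rfl | rfl
        · simp
        · linear_combination h2
      exact pow_eq_zero_iff (by norm_num) |>.1 this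
    subst hx
    have hφ : φ (pt 0 b h) = pt 0 b h := by
      rw [φ_pt]
      simp only [pt, Point.some.injEq]
      constructor
      · ring
      · rcases hb with rfl | rfl <;> ring
    have hν : ν F k (pt 0 b h) = pt 0 b h := by
      have e := congrArg (fun f => f (pt 0 b h)) (ν_mul (K := F) k hk)
      have e1 : (ν F k * (1 + Φ F)) (pt 0 b h) = ν F k (pt 0 b h + φ (pt 0 b h)) := rfl
      have e3 : (1 + Φ F ^ k) (pt 0 b h) = pt 0 b h + (Φ F ^ k) (pt 0 b h) := rfl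
      have h3 : (3 : ℕ) • pt 0 b h = 0 := by
        have := φφ (pt 0 b h)
        rw [hφ, hφ] at this
        have h4 : pt 0 b h + (pt 0 b h + pt 0 b h) = 0 := by
          nth_rewrite 1 [this]
          exact neg_add_cancel _
        rw [← h4]; abel
      rw [e1, e3, Φ_pow, Function.iterate_fixed hφ, hφ, map_add] at e
      have h3' : (3 : ℕ) • ν F k (pt 0 b h) = 0 := by rw [← map_nsmul, h3, map_zero]
      have : ν F k (pt 0 b h) - pt 0 b h = 
        (3 : ℕ) • ν F k (pt 0 b h) - (3 : ℕ) • pt 0 b h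
         - (ν F k (pt 0 b h) + ν F k (pt 0 b h) - (pt 0 b h + pt 0 b h)) := by abel
      rw [h3, h3', e] at this
      have h5 : ν F k (pt 0 b h) - pt 0 b h = 0 := by rw [this]; abel
      exact sub_eq_zero.1 h5
    rw [hν] at hP
    simp only [pt, Point.some.injEq] at hP
    obtain ⟨rfl, rfl⟩ := hP
    rcases hb with rfl | rfl
    · rw [add_zero] at hu1
      exact mul_ne_zero h₁ hd0 hu1.symm
    · have : c₃ * d = 0 := by rw [← hu3]; linear_combination h2
      exact mul_ne_zero h₃ hd0 this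
  · push Not at hb
    let K := AlgebraicClosure F
    let _ : Algebra (ZMod 2) K := ((algebraMap F K).comp (algebraMap (ZMod 2) F)).toAlgebra
    let ι : F →ₐ[ZMod 2] K := { algebraMap F K with commutes' := fun r => rfl }
    have hι : Function.Injective ι := (algebraMap F K).injective
    obtain ⟨t₁, ht⟩ := IsAlgClosed.exists_pow_nat_eq (ι b) (n := 3) (by norm_num)
    have H := heart k hk (ι x) (ι b) (eq_map ι h) (by rw [Ne, map_eq_zero_iff ι hι]; exact hb.1)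
      (by rw [← map_one ι]; exact fun e => hb.2 (hι e)) t₁ ht
    rw [← bc_pt ι x b h, ← bc_ν, hP, u_bc, u_pt] at H
    simp only at H
    rw [hu3, hu1, hu2] at H
    have H2 : ι (c₁ * d * b ^ ((2 ^ k + 1) / 3) + c₂ * d + c₃ * d * (b + 1) ^ ((2 ^ k + 1) / 3)) = 0 := by
      rw [← H]
      simp only [map_add, map_mul, map_pow, map_one]
    rw [map_eq_zero_iff ι hι] at H2
    have : d * (c₁ * b ^ ((2 ^ k + 1) / 3) + c₂ * 1 ^ ((2 ^ k + 1) / 3) +
        c₃ * (b + 1) ^ ((2 ^ k + 1) / 3)) = 0 := by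
      rw [← H2, one_pow]; ring
    exact (mul_eq_zero.1 this).resolve_left hd0

end final

end Pool.Agent.R114.Kas
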