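import Pool.Agent.R114.Kas.E
import Pool.Agent.R48.KT.Stm

namespace Pool.Agent.R114.Kas

open Pool.Agent.R48.KT

/-- Piece E in the form `StmE` of helper48's plan. -/
theorem stmE : StmE := by
  intro F _ _ _ n k r hF hg hk h3 hr d1 d2 d3 h1 h2 h3' hc
  have hr' : r = (2 ^ k + 1) / 3 := by omega
  obtain ⟨y1, y2, y3, hne, hs, hE⟩ := existence n k hF hk hg h3 d1 d2 d3 h1 h2 h3' hc
  refine ⟨y1, y2, y3, ?_, hs, by rw [hr']; exact hE⟩
  by_contra h
  push Not at h
  exact hne h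

end Pool.Agent.R114.Kas
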